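import Pool.Agent.Helper10.CR.Goals2

/-!
# Project CR, packet STRII: strings in case II
-/

universe u

namespace Pool.Agent.Helper72.CR

open Pool.Agent.Helper10.CR
open scoped QuadraticAlgebra

section

variable {k : Type u} [Field k] (α β : k) (t : ℤ → Bool)

/-- The vector space of the structure. -/
abbrev VV (α β : k) : Type u := ℤ →₀ QuadraticAlgebra k α β

/-- The first part of the relation. -/
def DP (y y' : VV α β) : Prop :=
  ∀ i, (t i = true → y i = 0 ∧ y' i = 0) ∧
    (t i = false → (y' i).re = α * (y i).im ∧ (y' i).im = (y i).re + β * (y i).im)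

/-- The second part of the relation. -/
def WP (u v : VV α β) : Prop :=
  ∀ i, (u (i + 1)).re + α * (v (i + 1)).im = (if t i = true then (v i).im else 0) ∧
    (u (i + 1)).im + (v (i + 1)).re + β * (v (i + 1)).im = 0

/-- The third part of the relation. -/
def GP (y u v : VV α β) : Prop :=
  ∀ i, (t i = true → y i = 0) ∧
    (t i = false → (u (i + 1)).re + α * (v (i + 1)).im = (y i).re ∧
      (u (i + 1)).im + (v (i + 1)).re + β * (v (i + 1)).im = (y i).im)

variable {α β t}

theorem DP.zero : DP α β t 0 0 := fun i => ⟨fun _ => ⟨rfl, rfl⟩, fun _ => by simp⟩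

theorem WP.zero : WP α β t 0 0 := fun i => by simp

theorem GP.zero : GP α β t 0 0 0 := fun i => ⟨fun _ => rfl, fun _ => by simp⟩

theorem DP.add {y y' z z' : VV α β} (h : DP α β t y y') (h' : DP α β t z z') :
    DP α β t (y + z) (y' + z') := by
  intro i
  refine ⟨fun hi => ?_, fun hi => ?_⟩
  · have h1 := (h i).1 hi
    have h2 := (h' i).1 hi
    simp [h1.1, h1.2, h2.1, h2.2]
  · have h1 := (h i).2 hi
    have h2 := (h' i).2 hi
    simp only [Finsupp.add_apply, QuadraticAlgebra.re_add, QuadraticAlgebra.im_add]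
    exact ⟨by linear_combination h1.1 + h2.1, by linear_combination h1.2 + h2.2⟩

theorem DP.smul {y y' : VV α β} (c : k) (h : DP α β t y y') : DP α β t (c • y) (c • y') := by
  intro i
  refine ⟨fun hi => ?_, fun hi => ?_⟩
  · have h1 := (h i).1 hi
    simp [h1.1, h1.2]
  · have h1 := (h i).2 hi
    simp only [Finsupp.smul_apply, QuadraticAlgebra.re_smul, QuadraticAlgebra.im_smul,
      smul_eq_mul]
    exact ⟨by linear_combination c * h1.1, by linear_combination c * h1.2⟩

theorem WP.add {y y' z z' : VV α β} (h : WP α β t y y') (h' : WP α β t z z') :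
    WP α β t (y + z) (y' + z') := by
  intro i
  have h1 := h i
  have h2 := h' i
  simp only [Finsupp.add_apply, QuadraticAlgebra.re_add, QuadraticAlgebra.im_add]
  by_cases hi : t i = true
  · rw [if_pos hi] at h1 h2 ⊢
    exact ⟨by linear_combination h1.1 + h2.1, by linear_combination h1.2 + h2.2⟩
  · rw [if_neg hi] at h1 h2 ⊢
    exact ⟨by linear_combination h1.1 + h2.1, by linear_combination h1.2 + h2.2⟩

theorem WP.smul {y y' : VV α β} (c : k) (h : WP α β t y y') : WP α β t (c • y) (c • y') := by
  intro i
  have h1 := h i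
  simp only [Finsupp.smul_apply, QuadraticAlgebra.re_smul, QuadraticAlgebra.im_smul,
      smul_eq_mul]
  by_cases hi : t i = true
  · rw [if_pos hi] at h1 ⊢
    exact ⟨by linear_combination c * h1.1, by linear_combination c * h1.2⟩
  · rw [if_neg hi] at h1 ⊢
    exact ⟨by linear_combination c * h1.1, by linear_combination c * h1.2⟩

theorem GP.add {y y' z z' w w' : VV α β} (h : GP α β t y z w) (h' : GP α β t y' z' w') :
    GP α β t (y + y') (z + z') (w + w') := by
  intro i
  refine ⟨fun hi => ?_, fun hi => ?_⟩
  · have h1 := (h i).1 hi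
    have h2 := (h' i).1 hi
    simp [h1, h2]
  · have h1 := (h i).2 hi
    have h2 := (h' i).2 hi
    simp only [Finsupp.add_apply, QuadraticAlgebra.re_add, QuadraticAlgebra.im_add]
    exact ⟨by linear_combination h1.1 + h2.1, by linear_combination h1.2 + h2.2⟩

theorem GP.smul {y z w : VV α β} (c : k) (h : GP α β t y z w) :
    GP α β t (c • y) (c • z) (c • w) := by
  intro i
  refine ⟨fun hi => ?_, fun hi => ?_⟩
  · have h1 := (h i).1 hi
    simp [h1]
  · have h1 := (h i).2 hi
    simp only [Finsupp.smul_apply, QuadraticAlgebra.re_smul, QuadraticAlgebra.im_smul,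
      smul_eq_mul]
    exact ⟨by linear_combination c * h1.1, by linear_combination c * h1.2⟩

variable (α β t) in
/-- The relation. -/
def Rl : Submodule k (Fin 7 → VV α β) where
  carrier := {w | DP α β t (w 0) (w 1) ∧ WP α β t (w 2) (w 3) ∧ GP α β t (w 4) (w 5) (w 6)}
  zero_mem' := ⟨DP.zero, WP.zero, GP.zero⟩
  add_mem' := by
    rintro a b ⟨h1, h2, h3⟩ ⟨h1', h2', h3'⟩
    exact ⟨h1.add h1', h2.add h2', h3.add h3'⟩
  smul_mem' := by
    rintro c b ⟨h1, h2, h3⟩
    exact ⟨h1.smul c, h2.smul c, h3.smul c⟩

variable (α β t) in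
/-- The structure. -/
noncomputable def XX : RS k 7 where
  V := VV α β
  Rel := Rl α β t

theorem mem_D {y y' : VV α β} : (![y, y', 0, 0, 0, 0, 0] : Fin 7 → VV α β) ∈ Rl α β t ↔
    DP α β t y y' :=
  ⟨fun h => h.1, fun h => ⟨h, WP.zero, GP.zero⟩⟩

theorem mem_W {y y' : VV α β} : (![0, 0, y, y', 0, 0, 0] : Fin 7 → VV α β) ∈ Rl α β t ↔
    WP α β t y y' :=
  ⟨fun h => h.2.1, fun h => ⟨DP.zero, h, GP.zero⟩⟩

theorem mem_G {y u v : VV α β} : (![0, 0, 0, 0, y, u, v] : Fin 7 → VV α β) ∈ Rl α β t ↔
    GP α β t y u v :=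
  ⟨fun h => h.2.2, fun h => ⟨DP.zero, WP.zero, h⟩⟩

/-- The shift. -/
noncomputable def shift (y : VV α β) : VV α β := Finsupp.equivMapDomain (Equiv.addRight 1) y

theorem shift_apply (y : VV α β) (i : ℤ) : shift y (i + 1) = y i := by
  simp [shift, Finsupp.equivMapDomain_apply]

/-- A finitely supported function given by a formula which vanishes outside of a finite set. -/
noncomputable def fs (f : ℤ → QuadraticAlgebra k α β) (hf : (Function.support f).Finite) :
    VV α β := Finsupp.ofSupportFinite f hf

theorem fs_apply (f : ℤ → QuadraticAlgebra k α β) (hf : (Function.support f).Finite) (i : ℤ) :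
    fs f hf i = f i := by
  rw [fs, Finsupp.ofSupportFinite_coe]

theorem fin_shift (y : VV α β) (c : ℤ) : {i : ℤ | y (i + c) ≠ 0}.Finite := by
  have h := (Finsupp.hasFiniteSupport y).preimage (f := fun i : ℤ => i + c)
    (fun a _ b _ h => by simpa using h)
  exact h

theorem isPII : PII α β (XX α β t) := by
  refine ⟨?_, ?_, ?_, ?_, ?_, ?_, ?_, ?_, ?_⟩
  · intro w hw
    exact ⟨mem_D.2 hw.1, mem_W.2 hw.2.1⟩
  · intro (y : VV α β) (y' : VV α β) h
    have h := mem_D.1 h
    refine mem_D.2 fun i => ⟨fun hi => ?_, fun hi => ?_⟩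
    · have h1 := (h i).1 hi
      refine ⟨h1.2, ?_⟩
      show (α • y + β • y' : VV α β) i = 0
      rw [Finsupp.add_apply, Finsupp.smul_apply, Finsupp.smul_apply, h1.1, h1.2]
      simp
    · have h1 := (h i).2 hi
      have e : (α • y + β • y' : VV α β) i = α • y i + β • y' i := rfl
      constructor
      · show ((α • y + β • y' : VV α β) i).re = _
        rw [e, QuadraticAlgebra.re_add, QuadraticAlgebra.re_smul, QuadraticAlgebra.re_smul,
          smul_eq_mul, smul_eq_mul]
        linear_combination β * h1.1 - α * h1.2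
      · show ((α • y + β • y' : VV α β) i).im = _
        rw [e, QuadraticAlgebra.im_add, QuadraticAlgebra.im_smul, QuadraticAlgebra.im_smul,
          smul_eq_mul, smul_eq_mul]
        linear_combination - h1.1
  · intro (y' : VV α β) h
    have h : DP α β t (0 : VV α β) y' := mem_D.1 h
    refine Finsupp.ext fun i => ?_
    rcases Bool.eq_false_or_eq_true (t i) with hi | hi
    · exact ((h i).1 hi).2
    · have h1 := (h i).2 hi
      refine QuadraticAlgebra.ext ?_ ?_
      · have := h1.1
        show (y' i).re = 0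
        simpa using this
      · have := h1.2
        show (y' i).im = 0
        simpa using this
  · intro (y : VV α β) (y' : VV α β) h
    have h := mem_D.1 h
    refine mem_W.2 fun i => ?_
    have e : ∀ j, ((-y : VV α β)) j = - y j := fun j => rfl
    have key : (y' (i + 1)).re = α * (y (i + 1)).im ∧
        (y' (i + 1)).im = (y (i + 1)).re + β * (y (i + 1)).im := by
      rcases Bool.eq_false_or_eq_true (t (i + 1)) with hi | hi
      · have h1 := (h (i + 1)).1 hi
        rw [h1.1, h1.2]
        simp
      · exact (h (i + 1)).2 hi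
    have key2 : (if t i = true then ((-y : VV α β) i).im else 0) = 0 := by
      split_ifs with hi
      · rw [e, ((h i).1 hi).1]
        simp
      · rfl
    constructor
    · show (y' (i + 1)).re + α * ((-y : VV α β) (i + 1)).im =
        if t i = true then ((-y : VV α β) i).im else 0
      rw [key2, e, QuadraticAlgebra.im_neg]
      linear_combination key.1
    · show (y' (i + 1)).im + ((-y : VV α β) (i + 1)).re + β * ((-y : VV α β) (i + 1)).im = 0
      rw [e, QuadraticAlgebra.im_neg, QuadraticAlgebra.re_neg]
      linear_combination key.2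
  · intro (y : VV α β) h
    have h : WP α β t y (0 : VV α β) := mem_W.1 h
    refine Finsupp.ext fun i => ?_
    have h1 := h (i - 1)
    rw [sub_add_cancel] at h1
    refine QuadraticAlgebra.ext ?_ ?_
    · show (y i).re = 0
      simpa using h1.1
    · show (y i).im = 0
      simpa using h1.2
  · intro (y : VV α β) (u : VV α β) (v : VV α β) h
    have h := mem_G.1 h
    refine ⟨((ω : QuadraticAlgebra k α β) • y : VV α β), mem_D.2 fun i => ?_, mem_G.2 fun i => ?_⟩
    · refine ⟨fun hi => ?_, fun hi => ?_⟩
      · have h1 := (h i).1 hi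
        refine ⟨h1, ?_⟩
        rw [Finsupp.smul_apply, h1, smul_zero]
      · rw [Finsupp.smul_apply, smul_eq_mul]
        constructor <;> simp
    · refine ⟨fun hi => ?_, fun hi => ?_⟩
      · have h1 := (h i).1 hi
        rw [Finsupp.smul_apply, h1, smul_zero]
      · have h1 := (h i).2 hi
        rw [Finsupp.smul_apply, smul_eq_mul]
        have e1 : (α • v : VV α β) (i + 1) = α • v (i + 1) := rfl
        have e2 : (u + β • v : VV α β) (i + 1) = u (i + 1) + β • v (i + 1) := rfl
        constructor
        · show ((α • v : VV α β) (i + 1)).re + α * ((u + β • v : VV α β) (i + 1)).im = _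
          rw [e1, e2]
          simp only [QuadraticAlgebra.re_smul, QuadraticAlgebra.im_add, QuadraticAlgebra.im_smul,
            smul_eq_mul, QuadraticAlgebra.re_mul, QuadraticAlgebra.omega_re,
            QuadraticAlgebra.omega_im]
          linear_combination α * h1.2
        · show ((α • v : VV α β) (i + 1)).im + ((u + β • v : VV α β) (i + 1)).re +
            β * ((u + β • v : VV α β) (i + 1)).im = _
          rw [e1, e2]
          simp only [QuadraticAlgebra.re_smul, QuadraticAlgebra.im_add, QuadraticAlgebra.im_smul,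
            QuadraticAlgebra.re_add,
            smul_eq_mul, QuadraticAlgebra.im_mul, QuadraticAlgebra.omega_re,
            QuadraticAlgebra.omega_im]
          linear_combination h1.1 + β * h1.2
  · intro (y : VV α β) (y' : VV α β) h
    have h := mem_D.1 h
    refine ⟨shift y, (0 : VV α β), mem_G.2 fun i => ⟨fun hi => ((h i).1 hi).1, fun hi => ?_⟩⟩
    rw [shift_apply]
    simp
  · intro (u : VV α β) (v : VV α β) h
    have h := mem_W.1 h
    refine mem_G.2 fun i => ⟨fun hi => rfl, fun hi => ?_⟩
    show (u (i + 1)).re + α * (v (i + 1)).im = ((0 : VV α β) i).re ∧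
      (u (i + 1)).im + (v (i + 1)).re + β * (v (i + 1)).im = ((0 : VV α β) i).im
    have h1 := h i
    rw [if_neg (by rw [hi]; simp)] at h1
    simpa using h1
  · intro (u : VV α β) (v : VV α β) h
    have h : GP α β t (0 : VV α β) u v := mem_G.1 h
    have hf2 : (Function.support (fun i : ℤ => if t i = true then
        (⟨(u (i + 1)).re + α * (v (i + 1)).im - (v i).im,
          (u (i + 1)).im + (v (i + 1)).re + β * (v (i + 1)).im⟩ : QuadraticAlgebra k α β)
        else 0)).Finite := by
      refine ((fin_shift u 1).union ((fin_shift v 1).union (fin_shift v 0))).subset ?_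
      intro i hi
      by_contra hc
      simp only [Set.mem_union, Set.mem_ofPred_eq, not_or, not_not, add_zero] at hc
      apply hi
      show (if t i = true then _ else _) = _
      split_ifs
      · rw [hc.1, hc.2.1, hc.2.2]
        refine QuadraticAlgebra.ext ?_ ?_ <;> simp
      · rfl
    obtain ⟨v₂, hv₂⟩ : ∃ v₂ : VV α β, ∀ i, v₂ i = if t i = true then
        (⟨(u (i + 1)).re + α * (v (i + 1)).im - (v i).im,
          (u (i + 1)).im + (v (i + 1)).re + β * (v (i + 1)).im⟩ : QuadraticAlgebra k α β)
        else 0 := ⟨fs _ hf2, fun i => fs_apply _ _ i⟩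
    have hg2 : (Function.support (fun i : ℤ =>
        (⟨(if t (i - 1) = true then (v₂ (i - 1)).im else 0) - α * (v₂ i).im,
          -((v₂ i).re + β * (v₂ i).im)⟩ : QuadraticAlgebra k α β))).Finite := by
      refine ((fin_shift v₂ (-1)).union (fin_shift v₂ 0)).subset ?_
      intro i hi
      by_contra hc
      simp only [Set.mem_union, Set.mem_ofPred_eq, not_or, not_not, add_zero,
        ← sub_eq_add_neg] at hc
      apply hi
      show (⟨_, _⟩ : QuadraticAlgebra k α β) = 0
      rw [hc.1, hc.2]
      refine QuadraticAlgebra.ext ?_ ?_ <;> simp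
    obtain ⟨u₂, hu₂⟩ : ∃ u₂ : VV α β, ∀ i, u₂ i =
        (⟨(if t (i - 1) = true then (v₂ (i - 1)).im else 0) - α * (v₂ i).im,
          -((v₂ i).re + β * (v₂ i).im)⟩ : QuadraticAlgebra k α β) :=
      ⟨fs _ hg2, fun i => fs_apply _ _ i⟩
    have hu₂i : ∀ i, (u₂ i).im = -((v₂ i).re + β * (v₂ i).im) := fun i => by rw [hu₂]
    have hu₂r : ∀ i, (u₂ (i + 1)).re = (if t i = true then (v₂ i).im else 0) -
        α * (v₂ (i + 1)).im := fun i => by rw [hu₂, add_sub_cancel_right]
    have e1 : ∀ i, (u - α • v₂ : VV α β) i = u i - α • v₂ i := fun i => rfl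
    have e2 : ∀ i, (v - u₂ - β • v₂ : VV α β) i = v i - u₂ i - β • v₂ i := fun i => rfl
    refine ⟨(u - α • v₂ : VV α β), (v - u₂ - β • v₂ : VV α β), u₂, v₂, mem_W.2 fun i => ?_,
      mem_W.2 fun i => ?_, ?_, ?_⟩
    · have hi1 := hu₂i (i + 1)
      have hi2 := hu₂r i
      have hi3 := hu₂i i
      rw [e1, e2, e2]
      simp only [QuadraticAlgebra.re_sub, QuadraticAlgebra.im_sub, QuadraticAlgebra.re_smul,
        QuadraticAlgebra.im_smul, smul_eq_mul]
      rcases Bool.eq_false_or_eq_true (t i) with hi | hi
      · have h2 := hv₂ i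
        rw [if_pos hi] at h2 hi2 ⊢
        have h3 : (v₂ i).re = (u (i + 1)).re + α * (v (i + 1)).im - (v i).im := by rw [h2]
        have h4 : (v₂ i).im = (u (i + 1)).im + (v (i + 1)).re + β * (v (i + 1)).im := by rw [h2]
        exact ⟨by linear_combination (-α) * hi1 + hi3 - h3,
          by linear_combination - hi2 - β * hi1 - h4⟩
      · have h2 := (h i).2 hi
        rw [if_neg (by rw [hi]; simp)] at hi2 ⊢
        have h3 : (u (i + 1)).re + α * (v (i + 1)).im = 0 := by simpa using h2.1
        have h4 : (u (i + 1)).im + (v (i + 1)).re + β * (v (i + 1)).im = 0 := by simpa using h2.2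
        exact ⟨by linear_combination (-α) * hi1 + h3,
          by linear_combination - hi2 - β * hi1 + h4⟩
    · have hi1 := hu₂i (i + 1)
      have hi2 := hu₂r i
      exact ⟨by linear_combination hi2, by linear_combination hi1⟩
    · exact (sub_add_cancel _ _).symm
    · show v = (v - u₂ - β • v₂) + u₂ + β • v₂
      abel

end

section rho

variable {k : Type u} [Field k] (α β : k)

/-- The first binary relation. -/
def rhoS : RF2 k 7 where
  n := 1
  s := 0
  q := 2
  a := Fin.elim0
  b := fun i => Fin.elim0 i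
  c := ![![![0, 0], ![0, 0], ![0, 0], ![1, 0], ![0, 0], ![0, 0], ![0, 0]],
    ![![0, 0], ![0, 0], ![α, -1], ![β, 0], ![0, 0], ![0, 0], ![0, 0]]]
  d := ![![![0], ![0], ![-1], ![0], ![0], ![0], ![0]],
    ![![0], ![0], ![0], ![-1], ![0], ![0], ![0]]]

/-- The second binary relation. -/
def rhoX : RF2 k 7 where
  n := 0
  s := 0
  q := 1
  a := Fin.elim0
  b := fun i => Fin.elim0 i
  c := ![![![0, 0], ![0, 0], ![0, 0], ![0, 0], ![1, 0], ![0, 1], ![0, 0]]]
  d := fun _ _ => Fin.elim0

variable {α β}

theorem sat_s {X : RS k 7} {y s : X.V} : (rhoS α β).Sat X y s ↔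
    ∃ y', ![0, 0, -y', y, 0, 0, 0] ∈ X.Rel ∧
      ![0, 0, α • y - s, β • y - y', 0, 0, 0] ∈ X.Rel := by
  have e0 : ∀ z : Fin 1 → X.V, (fun i => (rhoS α β).c (0 : Fin 2) i 0 • y +
      (rhoS α β).c (0 : Fin 2) i 1 • s + ∑ j : Fin 1, (rhoS α β).d (0 : Fin 2) i j • z j) =
      ![0, 0, -z 0, y, 0, 0, 0] := by
    intro z
    funext i
    fin_cases i <;> simp [rhoS]
  have e1 : ∀ z : Fin 1 → X.V, (fun i => (rhoS α β).c (1 : Fin 2) i 0 • y +
      (rhoS α β).c (1 : Fin 2) i 1 • s + ∑ j : Fin 1, (rhoS α β).d (1 : Fin 2) i j • z j) =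
      ![0, 0, α • y - s, β • y - z 0, 0, 0, 0] := by
    intro z
    funext i
    fin_cases i <;> simp [rhoS, sub_eq_add_neg]
  constructor
  · rintro ⟨z, -, h⟩
    have h0 := h (0 : Fin 2)
    have h1 := h (1 : Fin 2)
    refine ⟨z (0 : Fin 1), ?_, ?_⟩
    · rw [← e0 z]
      exact h0
    · rw [← e1 z]
      exact h1
  · rintro ⟨y', h0, h1⟩
    refine ⟨fun _ : Fin 1 => y', fun i => Fin.elim0 i, fun l => ?_⟩
    have hl : ∀ l : Fin 2, (fun i => (rhoS α β).c l i 0 • y +
      (rhoS α β).c l i 1 • s + ∑ j : Fin 1, (rhoS α β).d l i j • y') ∈ X.Rel := by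
      intro l
      fin_cases l
      · have := e0 (fun _ => y')
        rw [← this] at h0
        exact h0
      · have := e1 (fun _ => y')
        rw [← this] at h1
        exact h1
    exact hl l

theorem sat_x {X : RS k 7} {y s : X.V} : (rhoX (k := k)).Sat X y s ↔
    ![0, 0, 0, 0, y, s, 0] ∈ X.Rel := by
  have e0 : ∀ z : Fin 0 → X.V, (fun i => (rhoX (k := k)).c (0 : Fin 1) i 0 • y +
      (rhoX (k := k)).c (0 : Fin 1) i 1 • s +
        ∑ j : Fin 0, (rhoX (k := k)).d (0 : Fin 1) i j • z j) =
      ![0, 0, 0, 0, y, s, 0] := by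
    intro z
    funext i
    fin_cases i <;> simp [rhoX]
  constructor
  · rintro ⟨z, -, h⟩
    have h0 := h (0 : Fin 1)
    rw [← e0 z]
    exact h0
  · intro h0
    refine ⟨fun j : Fin 0 => Fin.elim0 j, fun i => Fin.elim0 i, fun l => ?_⟩
    have hl : ∀ l : Fin 1, (fun i => (rhoX (k := k)).c l i 0 • y +
      (rhoX (k := k)).c l i 1 • s + ∑ j : Fin 0, (rhoX (k := k)).d l i j •
        (fun j : Fin 0 => (Fin.elim0 j : X.V)) j) ∈ X.Rel := by
      intro l
      fin_cases l
      rw [← e0 (fun j : Fin 0 => Fin.elim0 j)] at h0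
      exact h0
    exact hl l

end rho

theorem goalStrII : GoalStrII.{u} := by
  intro k _ α β
  refine ⟨rhoS α β, rhoX, ?_, ?_, ?_⟩
  · intro X hX y s h
    have h := sat_x.1 h
    obtain ⟨y', hd, -⟩ := hX.g1 _ _ _ h
    have h1 := hX.dw _ _ hd
    have h2 := hX.dw _ _ (hX.d1 _ _ hd)
    refine sat_s.2 ⟨y', ?_, ?_⟩
    · have := X.Rel.neg_mem h1
      convert this using 1
      funext i
      fin_cases i <;> simp
    · have := X.Rel.add_mem h2 (X.Rel.smul_mem β (X.Rel.neg_mem h1))
      convert this using 1
      funext i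
      fin_cases i <;> simp
      abel
  · intro X hX y s h
    obtain ⟨y', h1, h2⟩ := sat_s.1 h
    have g1 := hX.g3 _ _ h1
    have g2 := hX.g3 _ _ h2
    obtain ⟨y'', hd, hg⟩ := hX.g1 _ _ _ g1
    have h0 := hX.d2 _ hd
    subst h0
    refine sat_x.2 ?_
    have := X.Rel.sub_mem hg g2
    convert this using 1
    funext i
    fin_cases i <;> simp
    abel
  · intro t
    refine ⟨XX α β t, isPII, fun i => (Finsupp.single i 1 : VV α β), QuadraticAlgebra k α β,
      inferInstance, fun i => (Finsupp.applyAddHom i : VV α β →+ QuadraticAlgebra k α β), ?_, ?_, ?_⟩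
    · show (Finsupp.single (0 : ℤ) (1 : QuadraticAlgebra k α β)) 0 ≠ 0
      rw [Finsupp.single_eq_same]
      exact one_ne_zero
    · intro i hi
      constructor
      · refine sat_s.2 ⟨(Finsupp.single i ω : VV α β), mem_W.2 fun j => ?_, mem_W.2 fun j => ?_⟩
        · show ((-Finsupp.single i ω : VV α β) (j + 1)).re +
              α * ((Finsupp.single i 1 : VV α β) (j + 1)).im =
              (if t j = true then ((Finsupp.single i 1 : VV α β) j).im else 0) ∧
              ((-Finsupp.single i ω : VV α β) (j + 1)).im +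
              ((Finsupp.single i 1 : VV α β) (j + 1)).re +
              β * ((Finsupp.single i 1 : VV α β) (j + 1)).im = 0
          simp only [Finsupp.neg_apply, Finsupp.single_apply]
          split_ifs <;> simp
        · show ((α • (Finsupp.single i 1 : VV α β) - (Finsupp.single (i + 1) 1 : VV α β)) (j + 1)).re +
              α * ((β • (Finsupp.single i 1 : VV α β) - (Finsupp.single i ω : VV α β)) (j + 1)).im =
              (if t j = true then ((β • (Finsupp.single i 1 : VV α β) - (Finsupp.single i ω : VV α β)) j).im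
                else 0) ∧
              ((α • (Finsupp.single i 1 : VV α β) - (Finsupp.single (i + 1) 1 : VV α β)) (j + 1)).im +
              ((β • (Finsupp.single i 1 : VV α β) - (Finsupp.single i ω : VV α β)) (j + 1)).re +
              β * ((β • (Finsupp.single i 1 : VV α β) - (Finsupp.single i ω : VV α β)) (j + 1)).im = 0
          simp only [Finsupp.sub_apply, Finsupp.smul_apply, Finsupp.single_apply]
          by_cases hij : i = j
          · subst hij
            rw [if_pos hi]
            simp
          · have hij' : ¬ (i + 1 = j + 1) := fun h => hij (by linarith)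
            rw [if_neg hij', if_neg hij, if_neg hij]
            split_ifs <;> simp
      · intro (y : VV α β) (s : VV α β) h
        obtain ⟨(y' : VV α β), h1, h2⟩ := sat_s.1 h
        have h1 : WP α β t (-y' : VV α β) y := mem_W.1 h1
        have h2 : WP α β t (α • y - s : VV α β) (β • y - y' : VV α β) := mem_W.1 h2
        show s (i + 1) = y i
        have a1 := (h1 i).1
        have a2 := (h1 i).2
        have a3 := (h1 (i - 1)).2
        have b1 := (h2 i).1
        have b2 := (h2 i).2
        rw [if_pos hi] at a1 b1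
        rw [sub_add_cancel] at a3
        have e1 : ∀ j, ((-y' : VV α β)) j = - y' j := fun j => rfl
        have e2 : ∀ j, (α • y - s : VV α β) j = α • y j - s j :=
          fun j => rfl
        have e3 : ∀ j, (β • y - y' : VV α β) j = β • y j - y' j :=
          fun j => rfl
        rw [e1] at a1 a2 a3
        rw [e2, e3] at b1 b2
        rw [e3] at b1
        simp only [QuadraticAlgebra.re_sub, QuadraticAlgebra.im_sub, QuadraticAlgebra.re_smul,
          QuadraticAlgebra.im_smul, smul_eq_mul, QuadraticAlgebra.re_neg,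
          QuadraticAlgebra.im_neg] at a1 a2 a3 b1 b2
        refine QuadraticAlgebra.ext ?_ ?_
        · linear_combination - b1 + α * a2 - a3
        · linear_combination - b2 + β * a2 + a1
    · intro i hi
      constructor
      · refine sat_x.2 (mem_G.2 fun j => ?_)
        refine ⟨fun hj => ?_, fun hj => ?_⟩
        · have hij : i ≠ j := by
            rintro rfl
            rw [hi] at hj
            exact absurd hj (by simp)
          show (Finsupp.single i 1 : VV α β) j = 0
          rw [Finsupp.single_apply, if_neg hij]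
        · show ((Finsupp.single (i + 1) 1 : VV α β) (j + 1)).re + α * ((0 : VV α β) (j + 1)).im =
              ((Finsupp.single i 1 : VV α β) j).re ∧
              ((Finsupp.single (i + 1) 1 : VV α β) (j + 1)).im + ((0 : VV α β) (j + 1)).re +
                β * ((0 : VV α β) (j + 1)).im = ((Finsupp.single i 1 : VV α β) j).im
          simp [Finsupp.single_apply]
      · intro (y : VV α β) (s : VV α β) h
        have h : GP α β t y s (0 : VV α β) := mem_G.1 (sat_x.1 h)
        show s (i + 1) = y i
        have h1 := (h i).2 hi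
        refine QuadraticAlgebra.ext ?_ ?_
        · simpa using h1.1
        · simpa using h1.2

end Pool.Agent.Helper72.CR
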